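import Mathlib

namespace Pool.Agent.Results.MP_94066b_nt.Toms

lemma pair (x k N L : ℕ) (hx : 0 < x) (hd : x ∣ N) (hN : 4 ≤ N) (hL : L.Prime)
    (hb : N ^ 4 < L) : ∃ q m : ℕ, 0 < q ∧ 0 < m ∧ q.Coprime m ∧ L.Coprime m ∧ L.Coprime q ∧
      L * x ∉ AddSubmonoid.closure {q, m} ∧ ∀ n j : ℕ, n ≤ N → n * k < j * x →
        j * x < n * (k + 1) → L * n ∈ AddSubmonoid.closure {q, m} := by
  have xN : x ≤ N := Nat.le_of_dvd (by omega) hd
  have c1 : IsCoprime ((k + 1) * N - 1 : ℤ) N := ⟨-1, k + 1, by ring⟩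
  obtain ⟨u, v, h⟩ := (c1.of_isCoprime_of_dvd_right (Int.natCast_dvd_natCast.2 hd)).mul_right c1
  have N1 : (0 : ℤ) < N - 1 := by omega
  have q0 : (0 : ℤ) < x * N := by positivity
  have l1 := Int.lt_ediv_add_one_mul_self (L : ℤ) N1
  have l2 := Int.ediv_mul_le (L : ℤ) N1.ne'
  have l0 : 0 ≤ (L : ℤ) / (N - 1) := Int.ediv_nonneg (by omega) N1.le
  set lo : ℤ := L / (N - 1)
  have s1 := Int.emod_nonneg (u * L - (lo + 1)) q0.ne'
  have s2 := Int.emod_lt_of_pos (u * L - (lo + 1)) q0
  have s3 := Int.emod_add_mul_ediv (u * L - (lo + 1)) (x * N)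
  set t := (u * L - (lo + 1)) / (x * N)
  obtain ⟨m, hm⟩ : ∃ m : ℕ, (m : ℤ) = lo + 1 + (u * L - (lo + 1)) % (x * N) :=
    ⟨_, Int.toNat_of_nonneg (by omega)⟩
  have hb' : (N : ℤ) ^ 4 < L := by exact_mod_cast hb
  have xN' : (x : ℤ) ≤ N := by omega
  have N4 : (4 : ℤ) ≤ N := by omega
  have qN : (x : ℤ) * N ≤ N * N := by gcongr
  have m1 : (L : ℤ) < m * (N - 1) := by nlinarith
  have m2 : (m : ℤ) * (N - 2) ≤ L := by
    have a : (m : ℤ) ≤ lo + N * N := by omega
    have b : (N : ℤ) * N * (N - 2) ≤ lo := by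
      rw [Int.le_ediv_iff_mul_le N1]; nlinarith
    nlinarith
  have m0 : 0 < m := by omega
  have mL : m < L := by zify; nlinarith
  have qL : x * N < L := by zify; nlinarith
  obtain ⟨e, he⟩ : ∃ e : ℤ, ((k + 1) * N - 1) * m - L = e * (x * N) :=
    ⟨-v * L - ((k + 1) * N - 1) * t, by
      rw [hm]; linear_combination L * h + ((k + 1) * N - 1) * s3⟩
  have cq : L.Coprime (x * N) := (Nat.coprime_of_lt_prime (by positivity) qL hL)
  have cm : (x * N).Coprime m := by
    rw [← Nat.isCoprime_iff_coprime] at cq ⊢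
    obtain ⟨a, b, hab⟩ := cq
    exact ⟨b - a * e, a * ((k + 1) * N - 1), by
      push_cast at hab ⊢; linear_combination hab + a * he⟩
  have D : (x * e - k * m) * N = m * (N - 1) - L := by linear_combination -he
  refine ⟨x * N, m, by positivity, m0, cm, Nat.coprime_of_lt_prime m0.ne' mL hL, cq, ?_, ?_⟩
  · rw [AddSubmonoid.mem_closure_pair]
    rintro ⟨a, b, hab⟩
    simp only [smul_eq_mul] at hab
    zify at hab
    obtain ⟨w, hw⟩ : ((x * N : ℕ) : ℤ) ∣ b + x :=
      (Nat.isCoprime_iff_coprime.2 cm).dvd_of_dvd_mul_right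
        ⟨(k + 1) * m - x * e - a, by push_cast; linear_combination hab - x * he⟩
    push_cast at hw
    have w0 : 1 ≤ w := by
      by_contra hw'
      have : (x : ℤ) * N * w ≤ 0 := mul_nonpos_of_nonneg_of_nonpos q0.le (by omega)
      omega
    have : (x : ℤ) * N * (a + (w - 1) * m + (x * e - k * m)) = 0 := by
      linear_combination hab - x * he - m * hw
    have h1 := (mul_eq_zero.1 this).resolve_left q0.ne'
    have h2 : 0 < x * e - k * m := by
      by_contra h2
      nlinarith
    have : 0 ≤ (w - 1) * m := mul_nonneg (by omega) (by omega)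
    omega
  · intro n j hn h1 h2
    zify at hn h1 h2
    have a1 : (0 : ℤ) ≤ n * ((k + 1) * N - 1) - j * (x * N) := by nlinarith
    have a2 : (0 : ℤ) ≤ j * m - n * e := by
      have b1 : (x * e - k * m) * N ≤ m := by linarith
      have b0 : 0 ≤ x * e - k * m := by
        by_contra h2
        nlinarith
      have b2 : n * (x * e - k * m) ≤ m := by nlinarith
      have b3 : 0 ≤ x * (j * m - n * e) := by nlinarith
      exact nonneg_of_mul_nonneg_right b3 (by omega)
    rw [AddSubmonoid.mem_closure_pair]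
    refine ⟨(j * m - n * e).toNat, (n * ((k + 1) * N - 1) - j * (x * N) : ℤ).toNat, ?_⟩
    simp only [smul_eq_mul]
    zify
    rw [Int.toNat_of_nonneg a1, Int.toNat_of_nonneg a2]
    linear_combination n * he

theorem result (a b c : ℕ) (hb : b ≠ 0) : ∃ (L n : ℕ) (q m : Fin n → ℕ), 0 < L ∧ 0 < n ∧
    (∀ i, 0 < q i ∧ 0 < m i ∧ (q i).Coprime (m i) ∧ L.Coprime (m i) ∧ L.Coprime (q i)) ∧
    ∀ x : ℕ, (((a * x : ℤ) % b ≤ x - c) ∨ x = 0) ↔
      ∀ i, L * x ∈ AddSubmonoid.closure {q i, m i} := by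
  have hb' : 0 < b := by omega
  have cv : ∀ x : ℕ, ((a * x : ℤ) % b ≤ x - c) ↔ a * x % b + c ≤ x := fun x => by
    zify; omega
  simp only [cv]
  have big : ∀ x, b + c ≤ x → a * x % b + c ≤ x := fun x h => by
    have := Nat.mod_lt (a * x) hb'; omega
  set N := (2 * (b + c) + 2).factorial
  have hN : 2 * (b + c) + 2 ≤ N := Nat.self_le_factorial _
  obtain ⟨L, hL, hp⟩ := Nat.exists_infinite_primes (N ^ 4 + 1)
  have key : ∀ i : Fin (b + c), ∃ q m : ℕ, (0 < q ∧ 0 < m ∧ q.Coprime m ∧ L.Coprime m ∧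
      L.Coprime q) ∧ (¬ (a * i % b + c ≤ i ∨ i.1 = 0) → L * i ∉ AddSubmonoid.closure {q, m}) ∧
      ∀ n ≤ N, a * n % b + c ≤ n → L * n ∈ AddSubmonoid.closure {q, m} := by
    rintro ⟨x, hx⟩
    by_cases h : a * x % b + c ≤ x ∨ x = 0
    · exact ⟨1, 1, by simp, fun h' => absurd h h', fun n _ _ =>
        (AddSubmonoid.mem_closure_pair _ _ _).2 ⟨L * n, 0, by simp⟩⟩
    obtain ⟨q, m, h1, h2, h3, h4, h5, h6, h7⟩ := pair x (a * x / b) N L (by omega)
      (Nat.dvd_factorial (by omega) (by omega)) (by omega) hp hL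
    refine ⟨q, m, ⟨h1, h2, h3, h4, h5⟩, fun _ => h6, fun n hn h8 => ?_⟩
    rcases n.eq_zero_or_pos with rfl | n0
    · exact zero_mem _
    have x0 : 0 < x := by omega
    have e1 := Nat.mod_add_div (a * x) b
    have e2 := Nat.mod_add_div (a * n) b
    have e3 := Nat.mod_lt (a * x) hb'
    by_cases hnx : n ≤ x
    · refine h7 n (a * n / b) hn ?_ ?_ <;> refine Nat.lt_of_mul_lt_mul_left (a := b) ?_
      all_goals
        generalize a * x / b = k at *
        generalize a * n / b = j at *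
        generalize a * x % b = r at *
        generalize a * n % b = s at *
      · have h9 : x + 1 ≤ r + c := by omega
        have h10 : c * n ≤ c * x := by gcongr
        have h11 : (s + c) * x ≤ n * x := by gcongr
        have h12 : n * (x + 1) ≤ n * (r + c) := by gcongr
        have : n * (r + b * k) = x * (s + b * j) := by rw [e1, e2]; ring
        nlinarith
      · have h12 : n * (r + 1) ≤ n * b := by gcongr; omega
        have : n * (r + b * k) = x * (s + b * j) := by rw [e1, e2]; ring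
        nlinarith
    · generalize a * x / b = k at *
      have f1 := Nat.mod_add_div (n * k) x
      have f2 := Nat.mod_lt (n * k) x0
      refine h7 n (n * k / x + 1) hn ?_ ?_ <;> rw [add_mul, mul_comm (n * k / x)]
      · omega
      · rw [mul_add]; omega
  choose q m h1 h2 h3 using key
  refine ⟨L, b + c, q, m, hp.pos, by omega, h1, fun x => ⟨fun h i => ?_, fun h => ?_⟩⟩
  · induction x using Nat.strong_induction_on with
    | _ x ih =>
      rcases h with h | rfl
      · by_cases hx : x ≤ N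
        · exact h3 i x hx h
        · have := add_mem (ih (x - (b + c)) (by omega) (.inl (big _ (by omega))))
            (h3 i (b + c) (by omega) (big _ le_rfl))
          rwa [← mul_add, Nat.sub_add_cancel (by omega)] at this
      · exact zero_mem _
  · by_contra e
    have hx : x < b + c := by
      by_contra e'
      exact e (.inl (big x (by omega)))
    exact h2 ⟨x, hx⟩ e (h _)

end Pool.Agent.Results.MP_94066b_nt.Toms
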